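import Mathlib
import Pool.Agent.K1H46.CP.Stm

/-! Project CP (helper46), piece S_FIX: cubic forms with a fixed short double zero. -/

set_option autoImplicit false

namespace Pool.Agent.K1H69.CP

open Finset Pool.Agent.K1H46.CP

/-- integers in one class -/
theorem card_class (S : Finset ℤ) (N q : ℕ) (hq : 1 ≤ q) (hS : ∀ x ∈ S, |x| ≤ (N : ℤ))
    (hc : ∀ x ∈ S, ∀ y ∈ S, (q : ℤ) ∣ x - y) : S.card ≤ 2 * N / q + 1 := by
  have hq' : (0 : ℤ) < q := by exact_mod_cast hq
  rw [← Finset.card_range (2 * N / q + 1)]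
  refine Finset.card_le_card_of_injOn (fun x => ((x + N) / q).toNat) ?_ ?_
  · intro x hx
    have h := abs_le.1 (hS x hx)
    rw [Finset.mem_coe, Finset.mem_range]
    have h1 : 0 ≤ (x + N) / (q : ℤ) := Int.ediv_nonneg (by linarith [h.1]) hq'.le
    have h2 : (x + N) / (q : ℤ) ≤ (2 * N) / q := Int.ediv_le_ediv hq' (by linarith [h.2])
    have h3 : ((2 * N : ℤ) / q) = ((2 * N / q : ℕ) : ℤ) := by push_cast; rfl
    rw [h3] at h2
    simp only
    omega
  · intro x hx y hy hxy
    have h := abs_le.1 (hS x hx)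
    have h' := abs_le.1 (hS y hy)
    have h1 : 0 ≤ (x + N) / (q : ℤ) := Int.ediv_nonneg (by linarith [h.1]) hq'.le
    have h1' : 0 ≤ (y + N) / (q : ℤ) := Int.ediv_nonneg (by linarith [h'.1]) hq'.le
    have h2 : (x + N) / (q : ℤ) = (y + N) / (q : ℤ) := by
      simp only at hxy
      omega
    have h3 : (x + N) % (q : ℤ) = (y + N) % (q : ℤ) := by
      apply Int.emod_emod_of_dvd _ (dvd_refl _) |>.symm.trans
      rw [Int.emod_emod_of_dvd _ (dvd_refl _)]
      apply Int.ModEq.symm
      rw [Int.modEq_iff_dvd]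
      have := hc x hx y hy
      rwa [show x + N - (y + N) = x - y by ring]
    have h4 := Int.emod_add_mul_ediv (x + N) q
    have h5 := Int.emod_add_mul_ediv (y + N) q
    rw [h2, h3, h5] at h4
    linarith

/-- nonzero multiples -/
theorem card_mult (S : Finset ℤ) (A q : ℕ) (hq : 1 ≤ q) (hS : ∀ x ∈ S, |x| ≤ (A : ℤ))
    (h0 : ∀ x ∈ S, x ≠ 0) (hc : ∀ x ∈ S, (q : ℤ) ∣ x) : (S.card : ℝ) ≤ 2 * A / q := by
  have hq' : (0 : ℤ) < q := by exact_mod_cast hq
  have h1 : S.card ≤ ((Finset.Icc (-((A / q : ℕ) : ℤ)) ((A / q : ℕ) : ℤ)).erase 0).card := by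
    refine Finset.card_le_card_of_injOn (fun x => x / q) ?_ ?_
    · intro x hx
      obtain ⟨k, hk⟩ := hc x hx
      have h := abs_le.1 (hS x hx)
      have e : x / (q : ℤ) = k := by rw [hk]; exact Int.mul_ediv_cancel_left _ hq'.ne'
      rw [Finset.mem_coe, Finset.mem_erase, Finset.mem_Icc]
      simp only
      rw [e]
      have hA : ((A / q : ℕ) : ℤ) = (A : ℤ) / q := by push_cast; rfl
      rw [hA]
      refine ⟨?_, ?_, ?_⟩
      · rintro rfl
        exact h0 x hx (by rw [hk, mul_zero])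
      · rw [neg_le, Int.le_ediv_iff_mul_le hq']
        rw [hk] at h
        nlinarith [h.1]
      · rw [Int.le_ediv_iff_mul_le hq']
        rw [hk] at h
        nlinarith [h.2]
    · intro x hx y hy hxy
      obtain ⟨k, hk⟩ := hc x hx
      obtain ⟨l, hl⟩ := hc y hy
      have e : x / (q : ℤ) = k := by rw [hk]; exact Int.mul_ediv_cancel_left _ hq'.ne'
      have e' : y / (q : ℤ) = l := by rw [hl]; exact Int.mul_ediv_cancel_left _ hq'.ne'
      simp only at hxy
      rw [e, e'] at hxy
      rw [hk, hl, hxy]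
  have h2 : ((Finset.Icc (-((A / q : ℕ) : ℤ)) ((A / q : ℕ) : ℤ)).erase 0).card = 2 * (A / q) := by
    generalize A / q = m
    rw [Finset.card_erase_of_mem (by rw [Finset.mem_Icc]; constructor <;> omega), Int.card_Icc]
    omega
  rw [h2] at h1
  have h3 : ((A / q : ℕ) : ℝ) ≤ (A : ℝ) / q := Nat.cast_div_le
  calc (S.card : ℝ) ≤ ((2 * (A / q) : ℕ) : ℝ) := by exact_mod_cast h1
    _ = 2 * ((A / q : ℕ) : ℝ) := by push_cast; ring
    _ ≤ 2 * ((A : ℝ) / q) := by linarith
    _ = 2 * A / q := by ring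

/-- one more coordinate -/
theorem card_step {α β γ : Type} [DecidableEq α] [DecidableEq β] [DecidableEq γ] (E : Finset α)
    (g : α → β) (h : α → γ) (n : ℕ)
    (hn : ∀ v ∈ E, ((E.filter fun w => g w = g v).image h).card ≤ n) :
    (E.image fun v => (g v, h v)).card ≤ n * (E.image g).card := by
  have h1 : (E.image g) = (E.image fun v => (g v, h v)).image Prod.fst := by
    rw [image_image]
    rfl
  rw [h1]
  apply Finset.card_le_mul_card_image
  intro b hb
  rw [mem_image] at hb
  obtain ⟨x, hx, rfl⟩ := hb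
  rw [mem_image] at hx
  obtain ⟨v, hv, rfl⟩ := hx
  refine le_trans ?_ (hn v hv)
  refine Finset.card_le_card_of_injOn Prod.snd ?_ ?_
  · intro y hy
    rw [Finset.mem_coe, mem_filter, mem_image] at hy
    obtain ⟨⟨w, hw, rfl⟩, hw2⟩ := hy
    rw [Finset.mem_coe, mem_image]
    exact ⟨w, mem_filter.2 ⟨hw, hw2⟩, rfl⟩
  · intro y hy z hz hyz
    rw [Finset.mem_coe, mem_filter] at hy hz
    exact Prod.ext (hy.2.trans hz.2.symm) hyz

theorem caseR (N p W : ℕ) (r s : ℤ) (E : Finset Q4) (hN : 1 ≤ N) (hp : p.Prime)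
    (hg : Int.gcd r s = 1) (hr : |r| = (W : ℤ)) (hs : |s| ≤ (W : ℤ)) (hW : W * W ≤ p) (h5 : 5 ≤ p)
    (hE : ∀ v ∈ E, Box N v ∧ ev v r s ≠ 0 ∧ Dbl p v r s) :
    (E.card : ℝ) ≤ 8 * N * (W : ℝ) ^ 3 / (p : ℝ) ^ 2 * (2 * N / W + 1) ^ 2 *
      (2 * N / (W * p) + 1) := by
  have hr0 : r ≠ 0 := by
    rintro rfl
    have hW0 : (W : ℤ) = 0 := by rw [← hr]; simp
    have : s = 0 := by
      rw [hW0] at hs
      exact abs_eq_zero.1 (le_antisymm hs (abs_nonneg _))
    rw [this] at hg
    simp at hg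
  have hW1 : 1 ≤ W := by
    have : (0 : ℤ) < W := by rw [← hr]; exact abs_pos.2 hr0
    omega
  have hWp : W < p := by
    by_contra hcon
    push Not at hcon
    have : p * p ≤ p := le_trans (Nat.mul_le_mul hcon hcon) hW
    nlinarith
  have hpZ : Prime (p : ℤ) := Nat.prime_iff_prime_int.1 hp
  have hsmall : ∀ x : ℤ, x ≠ 0 → |x| ≤ (W : ℤ) → ¬ (p : ℤ) ∣ x := by
    intro x hx0 hx h
    have := Int.le_of_dvd (abs_pos.2 hx0) ((dvd_abs _ _).2 h)
    have h2 : (W : ℤ) < p := by exact_mod_cast hWp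
    linarith
  have hpr : ¬ (p : ℤ) ∣ r := hsmall r hr0 hr.le
  have hcop : IsCoprime r s := Int.isCoprime_iff_gcd_eq_one.2 hg
  have hWr : ∀ x : ℤ, r ∣ x → (W : ℤ) ∣ x := by
    intro x h
    rw [← hr]
    exact (abs_dvd _ _).2 h
  -- the four coordinates
  have inj : E.card = (E.image fun v : Q4 => (((ev v r s, v.2.2.2), v.2.2.1), v.2.1)).card := by
    symm
    apply Finset.card_image_of_injOn
    intro v hv w hw h
    simp only [Prod.mk.injEq] at h
    obtain ⟨⟨⟨h1, h2⟩, h3⟩, h4⟩ := h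
    have h5 : v.1 * r ^ 3 = w.1 * r ^ 3 := by
      unfold ev at h1
      rw [h2, h3, h4] at h1
      linarith
    have h6 : v.1 = w.1 := mul_right_cancel₀ (pow_ne_zero 3 hr0) h5
    exact Prod.ext h6 (Prod.ext h4 (Prod.ext h3 h2))
  have sb := card_step E (fun v : Q4 => ((ev v r s, v.2.2.2), v.2.2.1)) (fun v => v.2.1)
    (2 * N / (W * p) + 1) (by
      intro v0 hv0
      apply card_class _ _ _ (Nat.mul_pos hW1 hp.pos)
      · intro x hx
        rw [mem_image] at hx
        obtain ⟨v, hv, rfl⟩ := hx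
        exact (hE v (mem_filter.1 hv).1).1.2.1
      · intro x hx y hy
        rw [mem_image] at hx hy
        obtain ⟨v, hv, rfl⟩ := hx
        obtain ⟨w, hw, rfl⟩ := hy
        rw [mem_filter] at hv hw
        have e : ((ev v r s, v.2.2.2), v.2.2.1) = ((ev w r s, w.2.2.2), w.2.2.1) :=
          hv.2.trans hw.2.symm
        simp only [Prod.mk.injEq] at e
        obtain ⟨⟨e1, e2⟩, e3⟩ := e
        have dv := (hE v hv.1).2.2
        have dw := (hE w hw.1).2.2
        -- a r + b s is the same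
        have k1 : v.1 * r + v.2.1 * s = w.1 * r + w.2.1 * s := by
          unfold ev at e1
          rw [e2, e3] at e1
          apply mul_left_cancel₀ (pow_ne_zero 2 hr0)
          linarith
        have k2 : r ∣ v.2.1 - w.2.1 := by
          have : r ∣ (v.2.1 - w.2.1) * s := ⟨w.1 - v.1, by linear_combination k1⟩
          exact hcop.dvd_of_dvd_mul_right this
        have k3 : (p : ℤ) ∣ v.2.1 - w.2.1 := by
          by_cases hs0 : s = 0
          · have h1 := dvd_sub dv.2.2 dw.2.2
            unfold eY at h1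
            have h2 : (p : ℤ) ∣ (v.2.1 - w.2.1) * r ^ 2 := by
              have e9 : (v.2.1 - w.2.1) * r ^ 2 =
                  v.2.1 * r ^ 2 + 2 * v.2.2.1 * r * s + 3 * v.2.2.2 * s ^ 2 -
                  (w.2.1 * r ^ 2 + 2 * w.2.2.1 * r * s + 3 * w.2.2.2 * s ^ 2) := by
                rw [hs0]
                ring
              rw [e9]
              exact h1
            rcases hpZ.dvd_or_dvd h2 with h | h
            · exact h
            · exact absurd (hpZ.dvd_of_dvd_pow h) hpr
          · have hps : ¬ (p : ℤ) ∣ s := hsmall s hs0 hs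
            have h1 := dvd_sub dv.2.1 dw.2.1
            unfold eX at h1
            have h2 : (p : ℤ) ∣ (v.2.1 - w.2.1) * (r * s) := by
              rw [← dvd_neg]
              convert h1 using 1
              rw [e3]
              linear_combination (-3 * r) * k1
            rcases hpZ.dvd_or_dvd h2 with h | h
            · exact h
            · rcases hpZ.dvd_or_dvd h with h | h
              · exact absurd h hpr
              · exact absurd h hps
        have hcp : IsCoprime (W : ℤ) (p : ℤ) := by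
          have : ¬ (p : ℤ) ∣ (W : ℤ) := hsmall W (by exact_mod_cast (by omega : W ≠ 0))
            (by rw [abs_of_nonneg (by positivity)])
          exact ((Prime.coprime_iff_not_dvd hpZ).2 this).symm
        push_cast
        exact hcp.mul_dvd (hWr _ k2) k3)
  have sc := card_step E (fun v : Q4 => (ev v r s, v.2.2.2)) (fun v => v.2.2.1)
    (2 * N / W + 1) (by
      intro v0 hv0
      apply card_class _ _ _ hW1
      · intro x hx
        rw [mem_image] at hx
        obtain ⟨v, hv, rfl⟩ := hx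
        exact (hE v (mem_filter.1 hv).1).1.2.2.1
      · intro x hx y hy
        rw [mem_image] at hx hy
        obtain ⟨v, hv, rfl⟩ := hx
        obtain ⟨w, hw, rfl⟩ := hy
        rw [mem_filter] at hv hw
        have e : (ev v r s, v.2.2.2) = (ev w r s, w.2.2.2) := hv.2.trans hw.2.symm
        simp only [Prod.mk.injEq] at e
        obtain ⟨e1, e2⟩ := e
        apply hWr
        have k1 : v.1 * r ^ 2 + v.2.1 * r * s + v.2.2.1 * s ^ 2 =
            w.1 * r ^ 2 + w.2.1 * r * s + w.2.2.1 * s ^ 2 := by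
          unfold ev at e1
          rw [e2] at e1
          apply mul_left_cancel₀ hr0
          linarith
        have : r ∣ (v.2.2.1 - w.2.2.1) * s ^ 2 :=
          ⟨(w.1 - v.1) * r + (w.2.1 - v.2.1) * s, by linear_combination k1⟩
        exact (hcop.pow_right).dvd_of_dvd_mul_right this)
  have sd := card_step E (fun v : Q4 => ev v r s) (fun v => v.2.2.2)
    (2 * N / W + 1) (by
      intro v0 hv0
      apply card_class _ _ _ hW1
      · intro x hx
        rw [mem_image] at hx
        obtain ⟨v, hv, rfl⟩ := hx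
        exact (hE v (mem_filter.1 hv).1).1.2.2.2
      · intro x hx y hy
        rw [mem_image] at hx hy
        obtain ⟨v, hv, rfl⟩ := hx
        obtain ⟨w, hw, rfl⟩ := hy
        rw [mem_filter] at hv hw
        have e1 : ev v r s = ev w r s := hv.2.trans hw.2.symm
        apply hWr
        unfold ev at e1
        have : r ∣ (v.2.2.2 - w.2.2.2) * s ^ 3 :=
          ⟨(w.1 - v.1) * r ^ 2 + (w.2.1 - v.2.1) * r * s + (w.2.2.1 - v.2.2.1) * s ^ 2, by
            linear_combination e1⟩
        exact (hcop.pow_right).dvd_of_dvd_mul_right this)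
  have sF : ((E.image fun v : Q4 => ev v r s).card : ℝ) ≤ 2 * ((4 * N * W ^ 3 : ℕ) : ℝ) /
      ((p ^ 2 : ℕ) : ℝ) := by
    apply card_mult _ _ _ (Nat.one_le_pow _ _ hp.pos)
    · intro x hx
      rw [mem_image] at hx
      obtain ⟨v, hv, rfl⟩ := hx
      obtain ⟨b1, b2, b3, b4⟩ := (hE v hv).1
      have hrW : |r| ≤ (W : ℤ) := hr.le
      have hW0 : (0 : ℤ) ≤ W := by positivity
      have hN0 : (0 : ℤ) ≤ N := by positivity
      have t1 : |v.1 * r ^ 3| ≤ N * W ^ 3 := by
        rw [abs_mul, abs_pow]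
        exact mul_le_mul b1 (pow_le_pow_left₀ (abs_nonneg _) hrW _) (by positivity) hN0
      have t2 : |v.2.1 * r ^ 2 * s| ≤ N * W ^ 3 := by
        rw [abs_mul, abs_mul, abs_pow]
        calc |v.2.1| * |r| ^ 2 * |s| ≤ N * W ^ 2 * W :=
              mul_le_mul (mul_le_mul b2 (pow_le_pow_left₀ (abs_nonneg _) hrW _) (by positivity) hN0)
                hs (abs_nonneg _) (by positivity)
          _ = N * W ^ 3 := by ring
      have t3 : |v.2.2.1 * r * s ^ 2| ≤ N * W ^ 3 := by
        rw [abs_mul, abs_mul, abs_pow]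
        calc |v.2.2.1| * |r| * |s| ^ 2 ≤ N * W * W ^ 2 :=
              mul_le_mul (mul_le_mul b3 hrW (by positivity) hN0)
                (pow_le_pow_left₀ (abs_nonneg _) hs _) (by positivity) (by positivity)
          _ = N * W ^ 3 := by ring
      have t4 : |v.2.2.2 * s ^ 3| ≤ N * W ^ 3 := by
        rw [abs_mul, abs_pow]
        exact mul_le_mul b4 (pow_le_pow_left₀ (abs_nonneg _) hs _) (by positivity) hN0
      push_cast
      unfold ev
      rw [abs_le] at t1 t2 t3 t4 ⊢
      constructor <;> linarith [t1.1, t1.2, t2.1, t2.2, t3.1, t3.2, t4.1, t4.2]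
    · intro x hx
      rw [mem_image] at hx
      obtain ⟨v, hv, rfl⟩ := hx
      exact (hE v hv).2.1
    · intro x hx
      rw [mem_image] at hx
      obtain ⟨v, hv, rfl⟩ := hx
      push_cast
      exact (hE v hv).2.2.1
  have tot : E.card ≤ (2 * N / (W * p) + 1) * ((2 * N / W + 1) * ((2 * N / W + 1) *
      (E.image fun v : Q4 => ev v r s).card)) := by
    rw [inj]
    exact sb.trans (Nat.mul_le_mul_left _ (sc.trans (Nat.mul_le_mul_left _ sd)))
  have f1 : ((2 * N / (W * p) + 1 : ℕ) : ℝ) ≤ 2 * N / (W * p) + 1 := by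
    push_cast
    have : ((2 * N / (W * p) : ℕ) : ℝ) ≤ ((2 * N : ℕ) : ℝ) / ((W * p : ℕ) : ℝ) := Nat.cast_div_le
    push_cast at this
    linarith
  have f2 : ((2 * N / W + 1 : ℕ) : ℝ) ≤ 2 * N / W + 1 := by
    push_cast
    have : ((2 * N / W : ℕ) : ℝ) ≤ ((2 * N : ℕ) : ℝ) / ((W : ℕ) : ℝ) := Nat.cast_div_le
    push_cast at this
    linarith
  calc (E.card : ℝ) ≤ (((2 * N / (W * p) + 1) * ((2 * N / W + 1) * ((2 * N / W + 1) *
      (E.image fun v : Q4 => ev v r s).card)) : ℕ) : ℝ) := by exact_mod_cast tot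
    _ = ((2 * N / (W * p) + 1 : ℕ) : ℝ) * (((2 * N / W + 1 : ℕ) : ℝ) * (((2 * N / W + 1 : ℕ) : ℝ) *
        ((E.image fun v : Q4 => ev v r s).card : ℝ))) := by push_cast; ring
    _ ≤ (2 * N / (W * p) + 1) * ((2 * N / W + 1) * ((2 * N / W + 1) *
        (2 * ((4 * N * W ^ 3 : ℕ) : ℝ) / ((p ^ 2 : ℕ) : ℝ)))) := by
        gcongr
    _ = _ := by
        push_cast
        ring

theorem t_FIX : S_FIX := by
  intro N p W r s E hN hp h5 hg hr2 hs2 hW hE
  rcases le_total |s| |r| with h | h
  · rw [max_eq_left h] at hW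
    apply caseR N p W r s E hN hp hg hW.symm (by rw [hW]; exact h) _ h5 hE
    have : ((W * W : ℕ) : ℤ) ≤ p := by
      push_cast
      rw [hW, abs_mul_abs_self, ← pow_two]
      exact hr2
    exact_mod_cast this
  · rw [max_eq_right h] at hW
    classical
    let σ : Q4 → Q4 := fun v => (v.2.2.2, v.2.2.1, v.2.1, v.1)
    have hσ : Function.Injective σ := by
      intro v w hvw
      simp only [σ, Prod.mk.injEq] at hvw
      obtain ⟨h1, h2, h3, h4⟩ := hvw
      exact Prod.ext h4 (Prod.ext h3 (Prod.ext h2 h1))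
    have hc : E.card = (E.image σ).card := (Finset.card_image_of_injective _ hσ).symm
    rw [hc]
    apply caseR N p W s r (E.image σ) hN hp (by rw [Int.gcd_comm]; exact hg) hW.symm
      (by rw [hW]; exact h) _ h5
    · intro v hv
      rw [mem_image] at hv
      obtain ⟨w, hw, rfl⟩ := hv
      obtain ⟨⟨b1, b2, b3, b4⟩, e, d1, d2, d3⟩ := hE w hw
      have ee : ev (σ w) s r = ev w r s := by
        simp only [ev, σ]
        ring
      have ex : eX (σ w) s r = eY w r s := by
        simp only [eX, eY, σ]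
        ring
      have ey : eY (σ w) s r = eX w r s := by
        simp only [eX, eY, σ]
        ring
      refine ⟨⟨b4, b3, b2, b1⟩, by rw [ee]; exact e, ?_, ?_, ?_⟩
      · rw [ee]; exact d1
      · rw [ex]; exact d3
      · rw [ey]; exact d2
    · have : ((W * W : ℕ) : ℤ) ≤ p := by
        push_cast
        rw [hW, abs_mul_abs_self, ← pow_two]
        exact hs2
      exact_mod_cast this

end Pool.Agent.K1H69.CP
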