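import Mathlib
import Pool.Agent.K1H46.CP.Stm

/-! Project CP (helper46), piece S_MID: sum over the primes and the short vectors. -/

set_option autoImplicit false

namespace Pool.Agent.K1H69.CP

open Finset Pool.Agent.K1H46.CP

theorem sum_inv_sqrt (n : ℕ) : ∑ i ∈ Ioc 0 n, 1 / √(i : ℝ) ≤ 2 * √(n : ℝ) := by
  induction n with
  | zero => simp
  | succ n ih =>
    rw [← Finset.insert_Ioc_right_eq_Ioc_add_one (by omega), Finset.sum_insert (by simp)]
    have h0 : 0 ≤ √(n : ℝ) := Real.sqrt_nonneg _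
    have h1 : 0 < √((n + 1 : ℕ) : ℝ) := Real.sqrt_pos.2 (by positivity)
    have h2 : √((n + 1 : ℕ) : ℝ) ^ 2 = n + 1 := by
      rw [Real.sq_sqrt (by positivity)]
      push_cast
      ring
    have h3 : √(n : ℝ) ^ 2 = n := Real.sq_sqrt (by positivity)
    have h4 : √(n : ℝ) ≤ √((n + 1 : ℕ) : ℝ) := Real.sqrt_le_sqrt (by push_cast; linarith)
    have h5 : 1 / √((n + 1 : ℕ) : ℝ) ≤ 2 * (√((n + 1 : ℕ) : ℝ) - √(n : ℝ)) := by
      rw [div_le_iff₀ h1]
      nlinarith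
    linarith

theorem t_MID (h1 : S_DBL) (h2 : S_FIX) : S_MID := by
  classical
  refine ⟨1296, by norm_num, ?_⟩
  intro N P P₁ E hN hP hP₁ hE
  -- the index set of a prime
  let I : ℕ → Finset (ℤ × ℤ) := fun p =>
    ((Icc (-(Nat.sqrt p : ℤ)) (Nat.sqrt p)) ×ˢ (Icc (-(Nat.sqrt p : ℤ)) (Nat.sqrt p))).filter
      fun x => Int.gcd x.1 x.2 = 1 ∧ x.1 ^ 2 ≤ (p : ℤ) ∧ x.2 ^ 2 ≤ (p : ℤ)
  let F : ℕ → ℤ × ℤ → Finset Q4 := fun p x =>
    E.filter fun v => ev v x.1 x.2 ≠ 0 ∧ Dbl p v x.1 x.2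
  have habs : ∀ (x : ℤ) (p : ℕ), x ^ 2 ≤ (p : ℤ) → x ∈ Icc (-(Nat.sqrt p : ℤ)) (Nat.sqrt p) := by
    intro x p hx
    have h3 : x.natAbs ^ 2 ≤ p := by
      have : ((x.natAbs ^ 2 : ℕ) : ℤ) ≤ p := by
        rw [Nat.cast_pow, Int.natCast_natAbs, sq_abs]
        exact hx
      exact_mod_cast this
    have h4 : x.natAbs ≤ Nat.sqrt p := by
      rw [Nat.le_sqrt, ← pow_two]
      exact h3
    rw [mem_Icc]
    omega
  have hsub : E ⊆ ((Ioc P P₁).filter Nat.Prime).biUnion fun p => (I p).biUnion (F p) := by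
    intro v hv
    obtain ⟨hB, hR, p, hp, hPp, hpP, hd, ht⟩ := hE v hv
    obtain ⟨r, s, hg, hr, hs, hD⟩ := h1 p v hp (by omega) hd ht
    rw [mem_biUnion]
    refine ⟨p, mem_filter.2 ⟨mem_Ioc.2 ⟨hPp, hpP⟩, hp⟩, ?_⟩
    rw [mem_biUnion]
    refine ⟨(r, s), ?_, mem_filter.2 ⟨hv, hR r s hg, hD⟩⟩
    rw [mem_filter, mem_product]
    exact ⟨⟨habs r p hr, habs s p hs⟩, hg, hr, hs⟩
  have hN' : (1 : ℝ) ≤ N := by exact_mod_cast hN
  have hbound : ∀ p ∈ (Ioc P P₁).filter Nat.Prime, (((I p).biUnion (F p)).card : ℝ) ≤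
      1296 * (N : ℝ) ^ 4 * ((p : ℝ) ^ 2)⁻¹ + 648 * (N : ℝ) ^ 3 * (1 / √(p : ℝ)) := by
    intro p hp
    rw [mem_filter, mem_Ioc] at hp
    obtain ⟨⟨hPp, hpP⟩, hpp⟩ := hp
    have hp5 : 5 ≤ p := by omega
    have hp0 : (0 : ℝ) < p := by exact_mod_cast hpp.pos
    have hsp : 0 < √(p : ℝ) := Real.sqrt_pos.2 hp0
    have hsq : √(p : ℝ) ^ 2 = p := Real.sq_sqrt hp0.le
    have hs1 : 1 ≤ √(p : ℝ) := by
      rw [Real.one_le_sqrt]
      exact_mod_cast hpp.one_le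
    have hpN : √(p : ℝ) ≤ N := by
      rw [Real.sqrt_le_left (by positivity)]
      exact_mod_cast hpP.trans hP₁
    have hone : ∀ x ∈ I p, ((F p x).card : ℝ) ≤
        72 * (N : ℝ) ^ 3 / (p : ℝ) ^ 2 * (2 * N / p + √(p : ℝ)) := by
      intro x hx
      rw [mem_filter] at hx
      obtain ⟨-, hg, hr, hs⟩ := hx
      set W : ℕ := max x.1.natAbs x.2.natAbs with hW
      have hW' : (W : ℤ) = max |x.1| |x.2| := by
        rw [hW, Nat.cast_max, Int.natCast_natAbs, Int.natCast_natAbs]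
      have hW1 : 1 ≤ W := by
        by_contra hcon
        have h0 : W = 0 := by omega
        have hx1 : x.1 = 0 := by
          have : x.1.natAbs ≤ W := le_max_left _ _
          omega
        have hx2 : x.2 = 0 := by
          have : x.2.natAbs ≤ W := le_max_right _ _
          omega
        rw [hx1, hx2] at hg
        simp at hg
      have hWs : (W : ℝ) ≤ √(p : ℝ) := by
        apply Real.le_sqrt_of_sq_le
        have h6 : (W : ℤ) ^ 2 ≤ p := by
          rw [hW']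
          rcases max_choice |x.1| |x.2| with h | h <;> rw [h, sq_abs] <;> assumption
        exact_mod_cast h6
      have hW0 : (0 : ℝ) < W := by exact_mod_cast hW1
      have h7 := h2 N p W x.1 x.2 (F p x) hN hpp hp5 hg hr hs hW' (by
        intro v hv
        rw [mem_filter] at hv
        exact ⟨(hE v hv.1).1, hv.2.1, hv.2.2⟩)
      refine h7.trans ?_
      have h8 : 2 * (N : ℝ) / W + 1 ≤ 3 * N / W := by
        rw [div_add_one hW0.ne', div_le_div_iff_of_pos_right hW0]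
        linarith
      calc 8 * N * (W : ℝ) ^ 3 / (p : ℝ) ^ 2 * (2 * N / W + 1) ^ 2 * (2 * N / (W * p) + 1)
          ≤ 8 * N * (W : ℝ) ^ 3 / (p : ℝ) ^ 2 * (3 * N / W) ^ 2 * (2 * N / (W * p) + 1) := by
            gcongr
        _ = 72 * (N : ℝ) ^ 3 / (p : ℝ) ^ 2 * (2 * N / p + W) := by
            field_simp
            ring
        _ ≤ _ := by gcongr
    have hI : ((I p).card : ℝ) ≤ 9 * p := by
      have h3 : (I p).card ≤ (2 * Nat.sqrt p + 1) ^ 2 := by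
        refine (card_filter_le _ _).trans ?_
        rw [card_product, Int.card_Icc, pow_two]
        have : ((Nat.sqrt p : ℤ) + 1 - -(Nat.sqrt p : ℤ)).toNat = 2 * Nat.sqrt p + 1 := by omega
        rw [this]
      have h4 : ((Nat.sqrt p : ℕ) : ℝ) ≤ √(p : ℝ) := Real.nat_sqrt_le_real_sqrt
      calc ((I p).card : ℝ) ≤ (((2 * Nat.sqrt p + 1) ^ 2 : ℕ) : ℝ) := by exact_mod_cast h3
        _ = (2 * ((Nat.sqrt p : ℕ) : ℝ) + 1) ^ 2 := by push_cast; ring
        _ ≤ (3 * √(p : ℝ)) ^ 2 := by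
            apply pow_le_pow_left₀ (by positivity)
            linarith
        _ = 9 * p := by rw [mul_pow, hsq]; norm_num
    calc (((I p).biUnion (F p)).card : ℝ) ≤ ((∑ x ∈ I p, (F p x).card : ℕ) : ℝ) := by
          exact_mod_cast card_biUnion_le
      _ = ∑ x ∈ I p, ((F p x).card : ℝ) := by push_cast; rfl
      _ ≤ ∑ _x ∈ I p, 72 * (N : ℝ) ^ 3 / (p : ℝ) ^ 2 * (2 * N / p + √(p : ℝ)) :=
          sum_le_sum hone
      _ = (I p).card * (72 * (N : ℝ) ^ 3 / (p : ℝ) ^ 2 * (2 * N / p + √(p : ℝ))) := by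
          rw [sum_const, nsmul_eq_mul]
      _ ≤ 9 * p * (72 * (N : ℝ) ^ 3 / (p : ℝ) ^ 2 * (2 * N / p + √(p : ℝ))) := by gcongr
      _ = 1296 * (N : ℝ) ^ 4 * ((p : ℝ) ^ 2)⁻¹ + 648 * (N : ℝ) ^ 3 * (√(p : ℝ) / p) := by
          field_simp
          ring
      _ = _ := by
          congr 2
          rw [div_eq_div_iff hp0.ne' hsp.ne', one_mul, ← pow_two, hsq]
  by_cases hPP : P ≤ P₁
  · calc (E.card : ℝ) ≤ ((((Ioc P P₁).filter Nat.Prime).biUnion fun p =>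
          (I p).biUnion (F p)).card : ℝ) := by exact_mod_cast card_le_card hsub
      _ ≤ ((∑ p ∈ (Ioc P P₁).filter Nat.Prime, ((I p).biUnion (F p)).card : ℕ) : ℝ) := by
          exact_mod_cast card_biUnion_le
      _ = ∑ p ∈ (Ioc P P₁).filter Nat.Prime, (((I p).biUnion (F p)).card : ℝ) := by
          push_cast; rfl
      _ ≤ ∑ p ∈ (Ioc P P₁).filter Nat.Prime, (1296 * (N : ℝ) ^ 4 * ((p : ℝ) ^ 2)⁻¹ +
          648 * (N : ℝ) ^ 3 * (1 / √(p : ℝ))) := sum_le_sum hbound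
      _ ≤ ∑ p ∈ Ioc P P₁, (1296 * (N : ℝ) ^ 4 * ((p : ℝ) ^ 2)⁻¹ +
          648 * (N : ℝ) ^ 3 * (1 / √(p : ℝ))) :=
          sum_le_sum_of_subset_of_nonneg (filter_subset _ _) (fun _ _ _ => by positivity)
      _ = 1296 * (N : ℝ) ^ 4 * ∑ p ∈ Ioc P P₁, ((p : ℝ) ^ 2)⁻¹ +
          648 * (N : ℝ) ^ 3 * ∑ p ∈ Ioc P P₁, (1 / √(p : ℝ)) := by
          rw [sum_add_distrib, mul_sum, mul_sum]
      _ ≤ 1296 * (N : ℝ) ^ 4 * (1 / P) + 648 * (N : ℝ) ^ 3 * (2 * √(P₁ : ℝ)) := by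
          have s1 : ∑ p ∈ Ioc P P₁, ((p : ℝ) ^ 2)⁻¹ ≤ 1 / P := by
            have := sum_Ioc_inv_sq_le_sub (α := ℝ) (k := P) (n := P₁) (by omega) hPP
            have h9 : (0 : ℝ) ≤ (P₁ : ℝ)⁻¹ := by positivity
            rw [one_div]
            linarith
          have s2 : ∑ p ∈ Ioc P P₁, (1 / √(p : ℝ)) ≤ 2 * √(P₁ : ℝ) := by
            refine le_trans ?_ (sum_inv_sqrt P₁)
            apply sum_le_sum_of_subset_of_nonneg
            · exact Ioc_subset_Ioc_left (Nat.zero_le _)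
            · intro _ _ _
              positivity
          gcongr
      _ = 1296 * ((N : ℝ) ^ 4 / P + (N : ℝ) ^ 3 * √(P₁ : ℝ)) := by ring
  · have hE0 : E = ∅ := by
      rw [eq_empty_iff_forall_notMem]
      intro v hv
      obtain ⟨-, -, p, -, hPp, hpP, -, -⟩ := hE v hv
      omega
    rw [hE0]
    simp only [card_empty, Nat.cast_zero]
    positivity

end Pool.Agent.K1H69.CP
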